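import Mathlib

/-!
A `T1` space that is Markov `k`-Menger but not Markov `k`-Rothberger.

The space is the disjoint union of levels `L 0, L 1, ...`, where `L 0` is an uncountable set and
`L (n + 1)` is the set of free ultrafilters on `L n`; a set `U` is open iff for every free
ultrafilter `w` on `L n` that belongs to `U`, the trace of `U` on `L n` belongs to `w`.
-/

open Set Filter Topology

namespace Pool.Agent.Results.MP_41ff45_gt.MarkovMengerNotRothberger

section Defs

variable (X : Type) [TopologicalSpace X]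

/-- `k`-covers: families of open sets covering the space such that every compact set is contained
in some member. -/
def IsKCover (U : Set (Set X)) : Prop :=
  (∀ u ∈ U, IsOpen u) ∧ ⋃₀ U = univ ∧ ∀ K : Set X, IsCompact K → ∃ u ∈ U, K ⊆ u

/-- Markov `k`-Menger spaces: the second player has a winning Markov strategy in the finite
selection game on `k`-covers. A Markov strategy maps the current move of the first player and the
number of the round to a reply. -/
def MarkovKMenger : Prop :=
  ∃ σ : Set (Set X) → ℕ → Set (Set X),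
    ∀ C : ℕ → Set (Set X), (∀ n, IsKCover X (C n)) →
      (∀ n, (σ (C n) n).Finite ∧ σ (C n) n ⊆ C n) ∧ IsKCover X (⋃ n, σ (C n) n)

/-- Markov `k`-Rothberger spaces: the second player has a winning Markov strategy in the single
selection game on `k`-covers. -/
def MarkovKRothberger : Prop :=
  ∃ σ : Set (Set X) → ℕ → Set X,
    ∀ C : ℕ → Set (Set X), (∀ n, IsKCover X (C n)) →
      (∀ n, σ (C n) n ∈ C n) ∧ IsKCover X (range fun n => σ (C n) n)

end Defs

/-! ### The space -/

/-- The levels: `Set ℕ`, the free ultrafilters on it, the free ultrafilters on that set, etc. -/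
def L : ℕ → Type
  | 0 => Set ℕ
  | n + 1 => {w : Ultrafilter (L n) // (w : Filter (L n)) ≤ cofinite}

/-- The ultrafilter that a point of a positive level is. -/
def uf {n : ℕ} (w : L (n + 1)) : Ultrafilter (L n) :=
  Subtype.val (p := fun w : Ultrafilter (L n) => (w : Filter (L n)) ≤ cofinite) w

/-- The point given by a free ultrafilter. -/
def pt {n : ℕ} (w : Ultrafilter (L n)) (hw : (w : Filter (L n)) ≤ cofinite) : L (n + 1) :=
  (⟨w, hw⟩ : {w : Ultrafilter (L n) // (w : Filter (L n)) ≤ cofinite})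

theorem uf_pt {n : ℕ} (w : Ultrafilter (L n)) (hw : (w : Filter (L n)) ≤ cofinite) :
    uf (pt w hw) = w := rfl

theorem uf_free {n : ℕ} (w : L (n + 1)) : (uf w : Filter (L n)) ≤ cofinite :=
  Subtype.prop (p := fun w : Ultrafilter (L n) => (w : Filter (L n)) ≤ cofinite) w

/-- The disjoint union of the levels. -/
def Sp : Type := Σ n, L n

/-- The point `z` of level `n`. -/
def at' (n : ℕ) (z : L n) : Sp := ⟨n, z⟩

/-- The level of a point. -/
def lev (x : Sp) : ℕ := x.1

/-- The trace of a set on the `n`-th level. -/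
def tr (U : Set Sp) (n : ℕ) : Set (L n) := {z | at' n z ∈ U}

/-- The topology: `U` is open iff for every point `w` of `U` of level `n + 1`, the trace of `U` on
level `n` belongs to the ultrafilter `w`. -/
instance : TopologicalSpace Sp where
  IsOpen U := ∀ (n : ℕ) (w : L (n + 1)), at' (n + 1) w ∈ U → tr U n ∈ uf w
  isOpen_univ := fun n w _ => by
    have : tr univ n = univ := rfl
    rw [this]
    exact univ_mem
  isOpen_inter := by
    intro U V hU hV n w hw
    exact inter_mem (hU n w hw.1) (hV n w hw.2)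
  isOpen_sUnion := by
    intro S hS n w hw
    obtain ⟨U, hUS, hwU⟩ := hw
    exact mem_of_superset (hS U hUS n w hwU) fun z hz => ⟨U, hUS, hz⟩

theorem isOpen_iff' {U : Set Sp} :
    IsOpen U ↔ ∀ (n : ℕ) (w : L (n + 1)), at' (n + 1) w ∈ U → tr U n ∈ uf w := Iff.rfl

theorem isClosed_iff' {F : Set Sp} :
    IsClosed F ↔ ∀ (n : ℕ) (w : L (n + 1)), tr F n ∈ uf w → at' (n + 1) w ∈ F := by
  rw [← isOpen_compl_iff, isOpen_iff']
  refine forall_congr' fun n => forall_congr' fun w => ?_
  have : tr Fᶜ n = (tr F n)ᶜ := rfl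
  rw [this, Ultrafilter.compl_mem_iff_notMem, mem_compl_iff, not_imp_not]

instance : T1Space Sp := by
  refine ⟨fun x => ?_⟩
  rw [isClosed_iff']
  intro n w hw
  exfalso
  have hfin : (tr {x} n).Finite := by
    refine Set.Subsingleton.finite ?_
    intro a ha b hb
    have h : at' n a = at' n b := (mem_singleton_iff.1 ha).trans (mem_singleton_iff.1 hb).symm
    have := (Sigma.mk.inj_iff.1 h).2
    exact eq_of_heq this
  have h1 : (tr {x} n)ᶜ ∈ uf w := uf_free w (hfin.compl_mem_cofinite)
  exact (Ultrafilter.compl_mem_iff_notMem.1 h1) hw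

/-- The points of level at most `m` form an open set. -/
theorem isOpen_lev_le (m : ℕ) : IsOpen {x : Sp | lev x ≤ m} := by
  rw [isOpen_iff']
  intro n w hw
  have hle : n + 1 ≤ m := hw
  have : tr {x : Sp | lev x ≤ m} n = univ := eq_univ_of_forall fun z => by
    show n ≤ m
    omega
  rw [this]
  exact univ_mem

/-- A point together with all points of lower level forms an open set. -/
theorem isOpen_lev_lt (s : Sp) : IsOpen {x : Sp | lev x < lev s ∨ x = s} := by
  rw [isOpen_iff']
  intro n w hw
  have hle : n < lev s := by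
    rcases hw with h | h
    · have : n + 1 < lev s := h
      omega
    · have : n + 1 = lev s := congrArg lev h
      omega
  have : tr {x : Sp | lev x < lev s ∨ x = s} n = univ := eq_univ_of_forall fun z => Or.inl hle
  rw [this]
  exact univ_mem

/-- The traces of the closure of a set. -/
def E (T : Set Sp) : ∀ n, Set (L n)
  | 0 => {z | at' 0 z ∈ T}
  | n + 1 => {w | at' (n + 1) w ∈ T ∨ E T n ∈ uf w}

/-- The closure of a set. -/
def cl (T : Set Sp) : Set Sp := {x | x.2 ∈ E T x.1}

theorem tr_cl (T : Set Sp) (n : ℕ) : tr (cl T) n = E T n := rfl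

theorem subset_cl (T : Set Sp) : T ⊆ cl T := by
  rintro ⟨n, z⟩ h
  cases n with
  | zero => exact h
  | succ n => exact Or.inl h

theorem isClosed_cl (T : Set Sp) : IsClosed (cl T) := by
  rw [isClosed_iff']
  intro n w hw
  rw [tr_cl] at hw
  exact Or.inr hw

theorem E_eq_empty {T : Set Sp} {n : ℕ} (hT : ∀ x ∈ T, lev x = n) {j : ℕ} (hj : j < n) :
    E T j = ∅ := by
  induction j with
  | zero =>
    refine eq_empty_of_forall_notMem fun z hz => ?_
    have : (0 : ℕ) = n := hT _ hz
    omega
  | succ j ih =>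
    refine eq_empty_of_forall_notMem fun z hz => ?_
    rcases hz with h | h
    · have : j + 1 = n := hT _ h
      omega
    · rw [ih (by omega)] at h
      exact Ultrafilter.empty_notMem h

theorem E_disjoint {S T : Set Sp} {n : ℕ} (hS : ∀ x ∈ S, lev x = n) (hT : ∀ x ∈ T, lev x = n)
    (hST : Disjoint S T) (j : ℕ) : Disjoint (E S j) (E T j) := by
  induction j with
  | zero =>
    rw [Set.disjoint_left]
    intro z hz hz'
    exact Set.disjoint_left.1 hST hz hz'
  | succ j ih =>
    rw [Set.disjoint_left]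
    intro w hw hw'
    rcases hw with h | h <;> rcases hw' with h' | h'
    · exact Set.disjoint_left.1 hST h h'
    · have h1 : j + 1 = n := hS _ h
      rw [E_eq_empty hT (by omega)] at h'
      exact Ultrafilter.empty_notMem h'
    · have h1 : j + 1 = n := hT _ h'
      rw [E_eq_empty hS (by omega)] at h
      exact Ultrafilter.empty_notMem h
    · have := inter_mem h h'
      rw [ih.inter_eq] at this
      exact Ultrafilter.empty_notMem this

theorem cl_disjoint {S T : Set Sp} {n : ℕ} (hS : ∀ x ∈ S, lev x = n) (hT : ∀ x ∈ T, lev x = n)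
    (hST : Disjoint S T) : Disjoint (cl S) (cl T) := by
  rw [Set.disjoint_left]
  rintro ⟨j, z⟩ hz hz'
  exact Set.disjoint_left.1 (E_disjoint hS hT hST j) hz hz'

/-- The closure of a set of level `n` adds only points of level greater than `n`. -/
theorem cl_le {T : Set Sp} {n : ℕ} (hT : ∀ x ∈ T, lev x = n) {x : Sp} (hx : x ∈ cl T)
    (hxn : lev x ≤ n) : x ∈ T := by
  obtain ⟨j, z⟩ := x
  cases j with
  | zero => exact hx
  | succ j =>
    rcases hx with h | h
    · exact h
    · have h1 : j + 1 ≤ n := hxn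
      rw [E_eq_empty hT (by omega)] at h
      exact (Ultrafilter.empty_notMem h).elim

/-- Compact sets are finite. -/
theorem compact_finite {K : Set Sp} (hK : IsCompact K) : K.Finite := by
  by_contra hinf
  -- `K` has bounded levels
  obtain ⟨m, hm⟩ : ∃ m, K ⊆ {x | lev x ≤ m} := by
    refine hK.elim_directed_cover (fun m => {x | lev x ≤ m}) isOpen_lev_le ?_ ?_
    · intro x _
      rw [mem_iUnion]
      exact ⟨lev x, show lev x ≤ lev x from le_refl _⟩
    · intro a b
      exact ⟨max a b, fun x hx => le_trans hx (le_max_left a b),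
        fun x hx => le_trans hx (le_max_right a b)⟩
  -- the last infinite level
  classical
  have hex : ∃ n, {x ∈ K | n ≤ lev x}.Finite := by
    refine ⟨m + 1, ?_⟩
    convert finite_empty (α := Sp)
    refine eq_empty_of_forall_notMem fun x hx => ?_
    have h1 : lev x ≤ m := hm hx.1
    have h2 : m + 1 ≤ lev x := hx.2
    omega
  obtain ⟨n, hn, hmin⟩ : ∃ n, {x ∈ K | n + 1 ≤ lev x}.Finite ∧ ¬ {x ∈ K | n ≤ lev x}.Finite := by
    have h0 : Nat.find hex ≠ 0 := by
      intro h0
      have := Nat.find_spec hex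
      rw [h0] at this
      apply hinf
      refine this.subset fun x hx => ⟨hx, Nat.zero_le _⟩
    obtain ⟨n, hn⟩ := Nat.exists_eq_succ_of_ne_zero h0
    refine ⟨n, ?_, ?_⟩
    · have := Nat.find_spec hex
      rwa [hn] at this
    · exact Nat.find_min hex (by omega)
  have hS : {x ∈ K | lev x = n}.Infinite := by
    intro hfin
    apply hmin
    refine (hn.union hfin).subset ?_
    rintro x ⟨hx, hx'⟩
    rcases eq_or_lt_of_le hx' with h | h
    · exact Or.inr ⟨hx, h.symm⟩
    · exact Or.inl ⟨hx, h⟩
  let f := hS.natEmbedding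
  let T : ℕ → Set Sp := fun i => range fun j => (f (Nat.pair i j) : Sp)
  have hTlev : ∀ i, ∀ x ∈ T i, lev x = n := by
    rintro i _ ⟨j, rfl⟩
    exact (f (Nat.pair i j)).2.2
  have hTK : ∀ i, T i ⊆ K := by
    rintro i _ ⟨j, rfl⟩
    exact (f (Nat.pair i j)).2.1
  have hTinf : ∀ i, (T i).Infinite := by
    intro i
    apply infinite_range_of_injective
    intro a b hab
    have := f.injective (Subtype.ext hab)
    exact (Nat.pair_eq_pair.1 this).2
  have hTdisj : ∀ i j, i ≠ j → Disjoint (T i) (T j) := by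
    intro i j hij
    rw [Set.disjoint_left]
    rintro _ ⟨a, rfl⟩ ⟨b, hb⟩
    have := f.injective (Subtype.ext hb)
    exact hij (Nat.pair_eq_pair.1 this).1.symm
  -- an index such that the closure of `T i` meets `K` only in `T i`
  obtain ⟨i, hi⟩ : ∃ i, Disjoint (cl (T i)) {x ∈ K | n + 1 ≤ lev x} := by
    by_contra hcon
    push Not at hcon
    have h1 : ∀ i, ∃ x, x ∈ cl (T i) ∧ x ∈ {x ∈ K | n + 1 ≤ lev x} := fun i =>
      Set.not_disjoint_iff.1 (hcon i)
    choose g hg1 hg2 using h1
    have hginj : Function.Injective g := by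
      intro i j hij
      by_contra hne
      exact Set.disjoint_left.1 (cl_disjoint (hTlev i) (hTlev j) (hTdisj i j hne)) (hg1 i)
        (hij ▸ hg1 j)
    exact (infinite_range_of_injective hginj) (hn.subset (range_subset_iff.2 hg2))
  have hKT : K ∩ cl (T i) = T i := by
    apply Subset.antisymm
    · rintro x ⟨hxK, hx⟩
      by_cases h : lev x ≤ n
      · exact cl_le (hTlev i) hx h
      · exact (Set.disjoint_left.1 hi hx ⟨hxK, by omega⟩).elim
    · exact subset_inter (hTK i) (subset_cl _)
  have hTc : IsCompact (T i) := hKT ▸ hK.inter_right (isClosed_cl (T i))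
  obtain ⟨t, ht⟩ := hTc.elim_nhds_subcover (fun s => {x : Sp | lev x < lev s ∨ x = s})
    (fun s _ => (isOpen_lev_lt s).mem_nhds (Or.inr rfl))
  apply hTinf i
  refine t.finite_toSet.subset fun x hx => ?_
  have := ht.2 hx
  simp only [mem_iUnion] at this
  obtain ⟨s, hs, hxs⟩ := this
  rcases hxs with h | h
  · have h1 := hTlev i x hx
    have h2 := hTlev i s (ht.1 s hs)
    omega
  · rw [h]
    exact hs

/-! ### The Menger game -/

/-- Every ultrafilter on the space that contains the set of points of level at most `m`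
converges. -/
theorem ultrafilter_converges {m : ℕ} {v : Ultrafilter Sp} (hv : {x : Sp | lev x ≤ m} ∈ v) :
    ∃ x : Sp, (v : Filter Sp) ≤ 𝓝 x := by
  -- a level in `v`
  obtain ⟨j, hj⟩ : ∃ j, {x : Sp | lev x = j} ∈ v := by
    have : {x : Sp | lev x ≤ m} = ⋃ j ∈ Iic m, {x : Sp | lev x = j} := by
      ext x
      simp
    rw [this, Ultrafilter.finite_biUnion_mem_iff (finite_Iic m)] at hv
    obtain ⟨j, -, hj⟩ := hv
    exact ⟨j, hj⟩
  have hinj : Function.Injective (at' j) := fun a b h => eq_of_heq (Sigma.mk.inj_iff.1 h).2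
  have hrange : range (at' j) ∈ v := by
    refine mem_of_superset hj ?_
    rintro ⟨i, z⟩ hz
    have hz' : i = j := hz
    subst hz'
    exact ⟨z, rfl⟩
  let w : Ultrafilter (L j) := v.comap hinj hrange
  have hwv : ∀ U : Set Sp, tr U j ∈ w → U ∈ v := by
    intro U hU
    have h1 : at' j '' (tr U j) ∈ v := by
      have := (Ultrafilter.mem_comap v hinj hrange).1 hU
      exact this
    refine mem_of_superset h1 ?_
    rintro _ ⟨z, hz, rfl⟩
    exact hz
  by_cases hw : (w : Filter (L j)) ≤ cofinite
  · refine ⟨at' (j + 1) (pt w hw), ?_⟩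
    intro N hN
    obtain ⟨U, hUN, hU, hxU⟩ := mem_nhds_iff.1 hN
    exact mem_of_superset (hwv U (hU j _ hxU)) hUN
  · -- `w` is principal
    obtain ⟨z, hz⟩ : ∃ z, {z} ∈ w := by
      by_contra hcon
      push Not at hcon
      apply hw
      intro s hs
      rw [mem_cofinite] at hs
      by_contra hs'
      have h1 : sᶜ ∈ w := Ultrafilter.compl_mem_iff_notMem.2 hs'
      obtain ⟨z, -, hz⟩ := w.eq_pure_of_finite_mem hs h1
      apply hcon z
      rw [hz]
      exact mem_singleton z
    refine ⟨at' j z, ?_⟩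
    intro N hN
    have hzN : at' j z ∈ N := mem_of_mem_nhds hN
    refine hwv N (mem_of_superset hz ?_)
    intro y hy
    rw [mem_singleton_iff.1 hy]
    exact hzN

/-- A set all of whose ultrafilters converge in the space is covered by finitely many members of
any open cover of the space. -/
theorem finite_cover {Y ι : Type} [TopologicalSpace Y] {S : Set Y}
    (hS : ∀ v : Ultrafilter Y, S ∈ v → ∃ y, (v : Filter Y) ≤ 𝓝 y) (W : ι → Set Y)
    (hW : ∀ i, IsOpen (W i)) (hcov : ∀ y, ∃ i, y ∈ W i) :
    ∃ t : Finset ι, S ⊆ ⋃ i ∈ t, W i := by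
  classical
  by_contra hcon
  push Not at hcon
  let F : Filter Y := Filter.comk (fun A => ∃ t : Finset ι, A ∩ S ⊆ ⋃ i ∈ t, W i)
    ⟨∅, by simp⟩
    (by
      rintro A ⟨t, ht⟩ B hBA
      exact ⟨t, (inter_subset_inter_left S hBA).trans ht⟩)
    (by
      rintro A ⟨t, ht⟩ B ⟨s, hs⟩
      refine ⟨t ∪ s, ?_⟩
      rw [union_inter_distrib_right]
      refine union_subset (ht.trans ?_) (hs.trans ?_)
      · exact biUnion_subset_biUnion_left (Finset.coe_subset.2 Finset.subset_union_left)
      · exact biUnion_subset_biUnion_left (Finset.coe_subset.2 Finset.subset_union_right))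
  have hF : F.NeBot := by
    refine ⟨fun h => ?_⟩
    have : (∅ : Set Y) ∈ F := by rw [h]; exact mem_bot
    rw [Filter.mem_comk] at this
    obtain ⟨t, ht⟩ := this
    rw [compl_empty, univ_inter] at ht
    exact hcon t ht
  let v : Ultrafilter Y := Ultrafilter.of F
  have hvF : ∀ A, A ∈ F → A ∈ v := fun A hA => Ultrafilter.of_le F hA
  have hSv : S ∈ v := by
    apply hvF
    rw [Filter.mem_comk]
    exact ⟨∅, by simp⟩
  obtain ⟨y, hy⟩ := hS v hSv
  obtain ⟨i, hi⟩ := hcov y
  have h1 : W i ∈ v := hy ((hW i).mem_nhds hi)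
  have h2 : (W i)ᶜ ∈ v := by
    apply hvF
    rw [Filter.mem_comk, compl_compl]
    refine ⟨{i}, ?_⟩
    simp
  exact (Ultrafilter.compl_mem_iff_notMem.1 h2) h1

/-- The finite reply. -/
theorem exists_reply {C : Set (Set Sp)} (hC : IsKCover Sp C) (n : ℕ) :
    ∃ F : Set (Set Sp), F.Finite ∧ F ⊆ C ∧
      ∀ b : Fin n → Sp, (∀ i, lev (b i) ≤ n) → ∃ O ∈ F, ∀ i, b i ∈ O := by
  obtain ⟨t, ht⟩ := finite_cover (Y := Fin n → Sp) (ι := C)
    (S := {b | ∀ i, lev (b i) ≤ n}) (by
      intro v hv
      have h1 : ∀ i, ∃ x : Sp, Tendsto (fun b : Fin n → Sp => b i) v (𝓝 x) := by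
        intro i
        apply ultrafilter_converges (m := n) (v := v.map fun b => b i)
        rw [Ultrafilter.mem_map]
        exact mem_of_superset hv fun b hb => hb i
      choose x hx using h1
      refine ⟨x, ?_⟩
      have := tendsto_pi_nhds.2 hx
      exact this)
    (fun O => {b | ∀ i, b i ∈ (O : Set Sp)}) (by
      intro O
      rw [ofPred_forall]
      exact isOpen_iInter_of_finite fun i => (hC.1 _ O.2).preimage (continuous_apply i)) (by
      intro b
      obtain ⟨O, hO, hbO⟩ := hC.2.2 (range b) (finite_range b).isCompact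
      exact ⟨⟨O, hO⟩, fun i => hbO ⟨i, rfl⟩⟩)
  refine ⟨Subtype.val '' (t : Set C), t.finite_toSet.image _, ?_, ?_⟩
  · rintro _ ⟨O, -, rfl⟩
    exact O.2
  · intro b hb
    have := ht hb
    simp only [mem_iUnion] at this
    obtain ⟨O, hO, hbO⟩ := this
    exact ⟨O, ⟨O, hO, rfl⟩, hbO⟩

theorem isKCover_iff {U : Set (Set Sp)} :
    IsKCover Sp U ↔
      (∀ u ∈ U, IsOpen u) ∧ ∀ F : Set Sp, F.Finite → ∃ u ∈ U, F ⊆ u := by
  constructor
  · rintro ⟨h1, -, h3⟩
    exact ⟨h1, fun F hF => h3 F hF.isCompact⟩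
  · rintro ⟨h1, h2⟩
    refine ⟨h1, ?_, fun K hK => h2 K (compact_finite hK)⟩
    refine eq_univ_of_forall fun x => ?_
    obtain ⟨u, hu, hxu⟩ := h2 {x} (finite_singleton x)
    exact ⟨u, hu, hxu rfl⟩

theorem markovKMenger : MarkovKMenger Sp := by
  classical
  refine ⟨fun C n => if h : IsKCover Sp C then (exists_reply h n).choose else ∅, ?_⟩
  intro C hC
  have hr : ∀ n, (if h : IsKCover Sp (C n) then (exists_reply h n).choose else ∅) =
      (exists_reply (hC n) n).choose := fun n => dif_pos (hC n)
  have hs : ∀ n, _ := fun n => (exists_reply (hC n) n).choose_spec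
  simp only [hr]
  refine ⟨fun n => ⟨(hs n).1, (hs n).2.1⟩, ?_⟩
  rw [isKCover_iff]
  refine ⟨?_, ?_⟩
  · intro u hu
    obtain ⟨n, hn⟩ := mem_iUnion.1 hu
    exact (hC n).1 u ((hs n).2.1 hn)
  · intro b hb
    lift b to Finset Sp using hb
    let n : ℕ := max b.card (b.sup lev)
    let f : Fin n → Sp := fun i => b.toList.getD i (at' 0 (∅ : Set ℕ))
    have hf : ∀ x ∈ b, ∃ i, f i = x := by
      intro x hx
      obtain ⟨i, hi, hix⟩ := List.getElem_of_mem (Finset.mem_toList.2 hx)
      have hi' : i < n := lt_of_lt_of_le (by rwa [Finset.length_toList] at hi) (le_max_left _ _)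
      refine ⟨⟨i, hi'⟩, ?_⟩
      show b.toList.getD i (at' 0 (∅ : Set ℕ)) = x
      rw [List.getD_eq_getElem _ _ hi, hix]
    have hlev : ∀ i, lev (f i) ≤ n := by
      intro i
      show lev (b.toList.getD i (at' 0 (∅ : Set ℕ))) ≤ n
      by_cases hi : (i : ℕ) < b.toList.length
      · rw [List.getD_eq_getElem _ _ hi]
        exact le_trans (Finset.le_sup (f := lev) (Finset.mem_toList.1 (List.getElem_mem hi)))
          (le_max_right _ _)
      · rw [List.getD_eq_default _ _ (by omega)]
        exact Nat.zero_le _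
    obtain ⟨O, hO, hfO⟩ := (hs n).2.2 f hlev
    refine ⟨O, mem_iUnion.2 ⟨n, hO⟩, ?_⟩
    intro x hx
    obtain ⟨i, rfl⟩ := hf x hx
    exact hfO i

/-! ### The Rothberger game -/

theorem uncountable_sp : ¬ (univ : Set Sp).Countable := by
  intro h
  have h1 : (range (at' 0)).Countable := h.mono (subset_univ _)
  have hinj : Function.Injective (at' 0) := fun a b h => eq_of_heq (Sigma.mk.inj_iff.1 h).2
  have h2 : (univ : Set (L 0)).Countable := by
    have h3 : (at' 0 ⁻¹' range (at' 0)).Countable := h1.preimage_of_injOn hinj.injOn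
    rwa [preimage_range] at h3
  have h3 : Countable (Set ℕ) := countable_univ_iff.1 h2
  obtain ⟨f, hf⟩ := exists_injective_nat (Set ℕ)
  exact Function.cantor_injective f hf

theorem not_markovKRothberger : ¬ MarkovKRothberger Sp := by
  rintro ⟨σ, hσ⟩
  have hcov : ∀ D : Set Sp, D.Infinite → IsKCover Sp ((fun x => ({x}ᶜ : Set Sp)) '' D) := by
    intro D hD
    rw [isKCover_iff]
    refine ⟨?_, ?_⟩
    · rintro _ ⟨x, -, rfl⟩
      exact isOpen_compl_singleton
    · intro F hF
      obtain ⟨x, hxD, hxF⟩ := (hD.sdiff hF).nonempty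
      refine ⟨{x}ᶜ, ⟨x, hxD, rfl⟩, ?_⟩
      intro y hy hyx
      rw [mem_singleton_iff] at hyx
      exact hxF (hyx ▸ hy)
  have hmem : ∀ C, IsKCover Sp C → ∀ n, σ C n ∈ C := by
    intro C hC n
    exact (hσ (fun _ => C) (fun _ => hC)).1 n
  let K : ℕ → Set Sp := fun n => ⋂ C ∈ {C | IsKCover Sp C}, σ C n
  have hKfin : ∀ n, (K n).Finite := by
    intro n
    by_contra hinf
    have hC := hcov (K n) hinf
    obtain ⟨x, hxK, hx⟩ := hmem _ hC n
    have h1 : x ∈ σ ((fun x => ({x}ᶜ : Set Sp)) '' K n) n := mem_iInter₂.1 hxK _ hC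
    rw [← hx] at h1
    exact h1 rfl
  have hKcov : (univ : Set Sp) ⊆ ⋃ n, K n := by
    intro y _
    by_contra hy
    rw [mem_iUnion] at hy
    push Not at hy
    have h1 : ∀ n, ∃ C, IsKCover Sp C ∧ y ∉ σ C n := by
      intro n
      have := hy n
      simp only [K, mem_iInter] at this
      push Not at this
      obtain ⟨C, hC, hyC⟩ := this
      exact ⟨C, hC, hyC⟩
    choose C hC hyC using h1
    have h2 := (hσ C hC).2.2.1
    have h3 : y ∈ ⋃₀ (range fun n => σ (C n) n) := by rw [h2]; trivial
    obtain ⟨_, ⟨n, rfl⟩, hyn⟩ := h3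
    exact hyC n hyn
  exact uncountable_sp ((countable_iUnion fun n => (hKfin n).countable).mono hKcov)

/-- There is a `T1` space that is Markov `k`-Menger but not Markov `k`-Rothberger. -/
theorem result : ∃ (X : Type) (_ : TopologicalSpace X),
    T1Space X ∧ MarkovKMenger X ∧ ¬ MarkovKRothberger X :=
  ⟨Sp, inferInstance, inferInstance, markovKMenger, not_markovKRothberger⟩

end Pool.Agent.Results.MP_41ff45_gt.MarkovMengerNotRothberger
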